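import Pool.Agent.Helper19_RFK.Stmts

/-!
Squad RFK, module ASY: asymptotics of the logarithmic potential at infinity.
-/

set_option autoImplicit false

open MeasureTheory Set

namespace Pool.Agent.RFK.H93

lemma abs_log_sub_log_le {a b ρ : ℝ} (hb : 2 * ρ < b) (hab : |a - b| ≤ ρ) :
    |Real.log a - Real.log b| ≤ 2 * ρ / b := by
  have hρ : 0 ≤ ρ := le_trans (abs_nonneg _) hab
  have hb0 : 0 < b := by linarith
  rw [abs_le] at hab
  have ha : b / 2 ≤ a := by linarith
  have ha0 : 0 < a := by linarith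
  have h1 : Real.log a - Real.log b ≤ 2 * ρ / b := by
    rw [← Real.log_div ha0.ne' hb0.ne']
    have h := Real.log_le_sub_one_of_pos (div_pos ha0 hb0)
    have h2 : a / b - 1 ≤ 2 * ρ / b := by
      rw [div_sub_one hb0.ne']
      exact div_le_div_of_nonneg_right (by linarith) hb0.le
    linarith
  have h3 : Real.log b - Real.log a ≤ 2 * ρ / b := by
    rw [← Real.log_div hb0.ne' ha0.ne']
    have h := Real.log_le_sub_one_of_pos (div_pos hb0 ha0)
    have h2 : b / a - 1 ≤ 2 * ρ / b := by
      rw [div_sub_one ha0.ne', div_le_div_iff₀ ha0 hb0]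
      nlinarith
    linarith
  rw [abs_le]
  constructor <;> linarith

theorem asy : AsyStmt := by
  intro E u hE hb hu ε hε
  obtain ⟨ρ₀, hρ₀, hsub⟩ : ∃ ρ₀ : ℝ, 0 < ρ₀ ∧ E ⊆ Metric.ball (0 : ℂ) ρ₀ := by
    obtain ⟨r, hr⟩ := hb.subset_ball (0 : ℂ)
    exact ⟨max r 1, by positivity, hr.trans (Metric.ball_subset_ball (le_max_left _ _))⟩
  have : IsFiniteMeasure (volume.restrict E) := ⟨by simpa using hb.measure_lt_top⟩
  have hui : Integrable u (volume.restrict E) := hu.integrable one_le_two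
  set I := ∫ y in E, |u y| with hI
  have hI0 : 0 ≤ I := integral_nonneg fun _ => abs_nonneg _
  refine ⟨max (2 * ρ₀ + 1) (2 * ρ₀ * I / ε), fun x hx => ?_⟩
  have hx1 : 2 * ρ₀ + 1 ≤ ‖x‖ := le_trans (le_max_left _ _) hx
  have hx2 : 2 * ρ₀ * I / ε ≤ ‖x‖ := le_trans (le_max_right _ _) hx
  have hx0 : 0 < ‖x‖ := by linarith
  have hbd : ∀ y ∈ E, |Real.log ‖x - y‖ - Real.log ‖x‖| ≤ 2 * ρ₀ / ‖x‖ := by
    intro y hy
    have hy' : ‖y‖ < ρ₀ := by simpa using hsub hy
    refine abs_log_sub_log_le (by linarith) ?_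
    have h := abs_norm_sub_norm_le (x - y) x
    have h' : x - y - x = -y := by ring
    rw [h', norm_neg] at h
    linarith
  have hmeas : Measurable fun y : ℂ => Real.log ‖x - y‖ := by fun_prop
  have hlog : Integrable (fun y => Real.log ‖x - y‖ * u y) (volume.restrict E) := by
    refine hui.bdd_mul (c := |Real.log ‖x‖| + 2 * ρ₀ / ‖x‖) hmeas.aestronglyMeasurable ?_
    filter_upwards [ae_restrict_mem hE] with y hy
    have h := hbd y hy
    have h2 := abs_sub_abs_le_abs_sub (Real.log ‖x - y‖) (Real.log ‖x‖)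
    rw [Real.norm_eq_abs]
    linarith
  have hc : Integrable (fun y => Real.log ‖x‖ * u y) (volume.restrict E) := hui.const_mul _
  have heq : pot E u x - (∫ y in E, u y) * Real.log ‖x‖ =
      ∫ y in E, (Real.log ‖x - y‖ - Real.log ‖x‖) * u y := by
    rw [pot, mul_comm (∫ y in E, u y), ← integral_const_mul, ← integral_sub hlog hc]
    refine integral_congr_ae (Filter.Eventually.of_forall fun y => ?_)
    ring
  rw [heq]
  calc |∫ y in E, (Real.log ‖x - y‖ - Real.log ‖x‖) * u y|
      ≤ ∫ y in E, |(Real.log ‖x - y‖ - Real.log ‖x‖) * u y| := abs_integral_le_integral_abs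
    _ ≤ ∫ y in E, (2 * ρ₀ / ‖x‖) * |u y| := by
        refine integral_mono_ae ?_ (hui.abs.const_mul _) ?_
        · refine Integrable.abs ?_
          refine (hlog.sub hc).congr (Filter.Eventually.of_forall fun y => ?_)
          simp only [Pi.sub_apply]
          ring
        · filter_upwards [ae_restrict_mem hE] with y hy
          rw [abs_mul]
          exact mul_le_mul_of_nonneg_right (hbd y hy) (abs_nonneg _)
    _ = 2 * ρ₀ / ‖x‖ * I := by rw [integral_const_mul]
    _ ≤ ε := by
        rw [div_mul_eq_mul_div, div_le_iff₀ hx0]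
        rw [div_le_iff₀ hε] at hx2
        linarith

end Pool.Agent.RFK.H93
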