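import Pool.Agent.Helper19_RFK.Stmts
import Pool.Agent.Helper19_LogPot.Potential

/-!
Squad RFK, module QKP: properties of the kernel `qk r`.
-/

set_option autoImplicit false

open MeasureTheory Set Pool.Agent.Helper19_LogPot
open scoped Real

namespace Pool.Agent.RFK.H93

lemma integrableOn_log_add (r : ℝ) (w : ℂ) :
    IntegrableOn (fun h : ℂ => Real.log ‖w + h‖) (Metric.ball 0 r) := by
  have hx : -w ∈ Metric.ball (0 : ℂ) (max r (‖w‖ + 1)) := by
    rw [mem_ball_zero_iff, norm_neg]
    exact lt_of_lt_of_le (by linarith) (le_max_right _ _)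
  have h := (integrableOn_log_sub hx).mono_set (Metric.ball_subset_ball (le_max_left r (‖w‖ + 1)))
  refine h.congr (Filter.Eventually.of_forall fun y => ?_)
  simp only
  rw [← norm_neg]
  congr 2
  ring

/-- The radial integrand. -/
noncomputable def rad (w : ℂ) (s : ℝ) : ℝ := 2 * π * s * (Real.log (max s ‖w‖) - Real.log ‖w‖)

lemma rad_nonneg {w : ℂ} (hw : w ≠ 0) {s : ℝ} (hs : 0 < s) : 0 ≤ rad w s := by
  have hw' : 0 < ‖w‖ := norm_pos_iff.mpr hw
  have h : Real.log ‖w‖ ≤ Real.log (max s ‖w‖) := Real.log_le_log hw' (le_max_right _ _)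
  unfold rad
  exact mul_nonneg (by positivity) (by linarith)

lemma continuous_rad {w : ℂ} (hw : w ≠ 0) : Continuous (rad w) := by
  have hw' : 0 < ‖w‖ := norm_pos_iff.mpr hw
  unfold rad
  refine Continuous.mul (by fun_prop) (Continuous.sub ?_ continuous_const)
  refine Continuous.log (by fun_prop) fun s => ?_
  exact (lt_of_lt_of_le hw' (le_max_right _ _)).ne'

lemma integrableOn_rad {w : ℂ} (hw : w ≠ 0) (r : ℝ) : IntegrableOn (rad w) (Ioo 0 r) :=
  ((continuous_rad hw).continuousOn.integrableOn_compact (isCompact_Icc (a := 0) (b := r))).mono_set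
    Ioo_subset_Icc_self

lemma qk_eq {r : ℝ} {w : ℂ} (hw : w ≠ 0) : qk r w = ∫ s in Ioo 0 r, rad w s := by
  have hw' : 0 < ‖w‖ := norm_pos_iff.mpr hw
  have hm1 : Measurable fun h : ℂ => Real.log ‖w + h‖ := by fun_prop
  have hi1 := integrableOn_log_add r w
  have hc : IntegrableOn (fun _ : ℂ => Real.log ‖w‖) (Metric.ball 0 r) :=
    integrableOn_const (Metric.isBounded_ball.measure_lt_top.ne)
  have e1 := integral_ball_eq_polar hm1 hi1
  have e2 := integral_ball_eq_polar (f := fun _ : ℂ => Real.log ‖w‖) measurable_const hc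
  have f1 : ∀ s ∈ Ioo 0 r, ∫ θ in Ioo (-π) π, s * Real.log ‖w + Complex.polarCoord.symm (s, θ)‖ =
      2 * π * s * Real.log (max s ‖w‖) := by
    intro s hs
    have h := integral_log_circle (x := -w) (neg_ne_zero.mpr hw) hs.1
    rw [integral_const_mul]
    have h' : ∀ θ : ℝ, ‖w + Complex.polarCoord.symm (s, θ)‖ =
        ‖-w - Complex.polarCoord.symm (s, θ)‖ := by
      intro θ
      rw [← norm_neg]
      congr 1
      ring
    simp only [h', h, norm_neg]
    ring
  have f2 : ∀ s ∈ Ioo 0 r, ∫ θ in Ioo (-π) π, s * Real.log ‖w‖ =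
      2 * π * s * Real.log ‖w‖ := by
    intro s hs
    rw [integral_const, smul_eq_mul, Measure.real, Measure.restrict_apply_univ, Real.volume_Ioo,
      ENNReal.toReal_ofReal (by linarith [Real.pi_pos])]
    ring
  have c1 : IntegrableOn (fun s : ℝ => 2 * π * s * Real.log (max s ‖w‖)) (Ioo 0 r) := by
    refine (Continuous.continuousOn ?_).integrableOn_compact
      (isCompact_Icc (a := 0) (b := r)) |>.mono_set Ioo_subset_Icc_self
    refine Continuous.mul (by fun_prop) ?_
    refine Continuous.log (by fun_prop) fun s => ?_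
    exact (lt_of_lt_of_le hw' (le_max_right _ _)).ne'
  have c2 : IntegrableOn (fun s : ℝ => 2 * π * s * Real.log ‖w‖) (Ioo 0 r) := by
    refine (Continuous.continuousOn ?_).integrableOn_compact
      (isCompact_Icc (a := 0) (b := r)) |>.mono_set Ioo_subset_Icc_self
    fun_prop
  rw [qk, integral_sub hi1 hc, e1, e2, setIntegral_congr_fun measurableSet_Ioo f1,
    setIntegral_congr_fun measurableSet_Ioo f2, ← integral_sub c1 c2]
  refine setIntegral_congr_fun measurableSet_Ioo fun s _ => ?_
  simp only [rad]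
  ring

lemma qk_nonneg {r : ℝ} {w : ℂ} (hw : w ≠ 0) : 0 ≤ qk r w := by
  rw [qk_eq hw]
  exact setIntegral_nonneg measurableSet_Ioo fun s hs => rad_nonneg hw hs.1

lemma qk_zero {r : ℝ} (hr : 0 < r) {w : ℂ} (hw : r ≤ ‖w‖) : qk r w = 0 := by
  have hw0 : w ≠ 0 := by
    rintro rfl
    rw [norm_zero] at hw
    linarith
  rw [qk_eq hw0]
  refine setIntegral_eq_zero_of_forall_eq_zero fun s hs => ?_
  have h : max s ‖w‖ = ‖w‖ := max_eq_right (hs.2.le.trans hw)
  simp only [rad, h, sub_self, mul_zero]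

lemma qk_neg (r : ℝ) (w : ℂ) : qk r (-w) = qk r w := by
  by_cases hw : w = 0
  · rw [hw, neg_zero]
  · rw [qk_eq hw, qk_eq (neg_ne_zero.mpr hw)]
    simp only [rad, norm_neg]

lemma measurable_qk (r : ℝ) : Measurable (qk r) := by
  have hf : Measurable fun p : ℂ × ℂ => Real.log ‖p.1 + p.2‖ - Real.log ‖p.1‖ := by fun_prop
  exact (hf.stronglyMeasurable.integral_prod_right'
    (ν := volume.restrict (Metric.ball (0 : ℂ) r))).measurable

lemma abs_qk_le {r : ℝ} (hr : 0 < r) {w : ℂ} (hw : w ≠ 0) (hwr : ‖w‖ < r) :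
    |qk r w| ≤ (2 * π * r * (|Real.log r| + |Real.log ‖w‖|)) * r := by
  have hw' : 0 < ‖w‖ := norm_pos_iff.mpr hw
  rw [qk_eq hw]
  have h := norm_setIntegral_le_of_norm_le_const (μ := volume) (s := Ioo (0 : ℝ) r) (f := rad w)
    (C := 2 * π * r * (|Real.log r| + |Real.log ‖w‖|)) (by simp) (fun s hs => ?_)
  · rw [Real.norm_eq_abs, Measure.real, Real.volume_Ioo, sub_zero, ENNReal.toReal_ofReal hr.le] at h
    exact h
  · rw [Real.norm_eq_abs, abs_of_nonneg (rad_nonneg hw hs.1)]
    have h1 : Real.log (max s ‖w‖) ≤ Real.log r :=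
      Real.log_le_log (lt_of_lt_of_le hw' (le_max_right _ _)) (max_le hs.2.le hwr.le)
    have h2 : Real.log (max s ‖w‖) - Real.log ‖w‖ ≤ |Real.log r| + |Real.log ‖w‖| := by
      have := le_abs_self (Real.log r)
      have := neg_abs_le (Real.log ‖w‖)
      linarith
    unfold rad
    have hs1 : 2 * π * s ≤ 2 * π * r := by
      have := hs.2.le
      have := Real.pi_pos
      nlinarith
    have h3 : 0 ≤ |Real.log r| + |Real.log ‖w‖| := by positivity
    calc 2 * π * s * (Real.log (max s ‖w‖) - Real.log ‖w‖)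
        ≤ 2 * π * s * (|Real.log r| + |Real.log ‖w‖|) :=
          mul_le_mul_of_nonneg_left h2 (by have := hs.1; positivity)
      _ ≤ 2 * π * r * (|Real.log r| + |Real.log ‖w‖|) := mul_le_mul_of_nonneg_right hs1 h3

lemma ae_ne_zero : ∀ᵐ w : ℂ, w ≠ 0 := by
  have h : volume ({0} : Set ℂ) = 0 := measure_singleton 0
  exact compl_mem_ae_iff.mpr h

lemma integrable_qk {r : ℝ} (hr : 0 < r) : Integrable (qk r) := by
  have hlog : IntegrableOn (fun w : ℂ => Real.log ‖w‖) (Metric.ball 0 r) := by
    have h := integrableOn_log_sub (R := r) (x := 0) (by simpa using hr)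
    refine h.congr (Filter.Eventually.of_forall fun y => ?_)
    simp
  have hc : IntegrableOn (fun _ : ℂ => |Real.log r|) (Metric.ball 0 r) :=
    integrableOn_const (Metric.isBounded_ball.measure_lt_top.ne)
  have hg : IntegrableOn (fun w : ℂ => (2 * π * r * (|Real.log r| + |Real.log ‖w‖|)) * r)
      (Metric.ball 0 r) := ((hc.add hlog.abs).const_mul _).mul_const _
  rw [← integrable_indicator_iff Metric.isOpen_ball.measurableSet] at hg
  refine hg.mono' (measurable_qk r).aestronglyMeasurable ?_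
  filter_upwards [ae_ne_zero] with w hw
  rw [Real.norm_eq_abs]
  by_cases hwr : ‖w‖ < r
  · rw [indicator_of_mem (by simpa using hwr)]
    exact abs_qk_le hr hw hwr
  · rw [qk_zero hr (not_lt.mp hwr), abs_zero]
    refine indicator_nonneg (fun w _ => ?_) w
    positivity

lemma qk_pos {r : ℝ} {w : ℂ} (hw : w ≠ 0) (hwr : ‖w‖ < r) : 0 < qk r w := by
  have hw' : 0 < ‖w‖ := norm_pos_iff.mpr hw
  rw [qk_eq hw, setIntegral_pos_iff_support_of_nonneg_ae ?_ (integrableOn_rad hw r)]
  · have hsub : Ioo ‖w‖ r ⊆ Function.support (rad w) ∩ Ioo 0 r := by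
      intro s hs
      refine ⟨?_, hw'.trans hs.1, hs.2⟩
      have hs0 : 0 < s := hw'.trans hs.1
      have h : Real.log ‖w‖ < Real.log (max s ‖w‖) := by
        rw [max_eq_left hs.1.le]
        exact Real.log_lt_log hw' hs.1
      have : 0 < rad w s := by
        unfold rad
        exact mul_pos (by positivity) (by linarith)
      exact this.ne'
    refine lt_of_lt_of_le ?_ (measure_mono hsub)
    rw [Real.volume_Ioo]
    simpa using hwr
  · filter_upwards [ae_restrict_mem measurableSet_Ioo] with s hs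
    exact rad_nonneg hw hs.1

lemma Nr_pos {r : ℝ} (hr : 0 < r) : 0 < Nr r := by
  rw [Nr, integral_pos_iff_support_of_nonneg_ae ?_ (integrable_qk hr)]
  · have hsub : Metric.ball (0 : ℂ) r \ {0} ⊆ Function.support (qk r) := by
      intro w hw
      exact (qk_pos hw.2 (by simpa using hw.1)).ne'
    refine lt_of_lt_of_le ?_ (measure_mono hsub)
    rw [measure_sdiff_null (measure_singleton _)]
    exact Metric.measure_ball_pos _ _ hr
  · filter_upwards [ae_ne_zero] with w hw
    exact qk_nonneg hw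

theorem qkp : QkpStmt := fun r hr =>
  ⟨fun _ hw => qk_nonneg hw, fun _ hw => qk_zero hr hw, qk_neg r, measurable_qk r,
    integrable_qk hr, Nr_pos hr⟩

end Pool.Agent.RFK.H93
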